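import Pool.Agent.Q36.KZ.HNP

/-!
# Project KZ: HDP
-/

set_option autoImplicit false

namespace Q36.KZ

open Finset Filter Topology MeasureTheory
open scoped Classical
open Pool.Agent.W76.MO (hh nc cell lp Rough)
open Pool.Agent.Q18.KZ

theorem hdp_core (hPW : S_PW) {E : KEnv} {j i I a b : ℕ} {F : Finset (ℕ × ℕ)}
    (hF : Fct E j i F) (hj : 10 ^ 17 ≤ j) (hjI : j ≤ I) (hi : 1 ≤ i) (ha : 2 ^ I ≤ a)
    (hb : b ≤ 2 ^ (I + 1)) {L : Finset ℕ} (hiI : (I : ℝ) ≤ 10 ^ 6 * ((i : ℝ) + 1))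
    (c : ℕ → ℕ × ℕ → Prop) (hc : ∀ n u, c n u → u.1 ∣ n / u.2) (cc : ℕ → ℕ → Prop)
    (hcc : ∀ n, ∀ u ∈ F, c n u → cc n (u.1 * u.2))
    (hR : ∑ y ∈ DD j I a b 1 cc, QL L y.1 ^ (1 / 2 - d1) ≤
      (2 : ℝ) ^ ((1 / 2 - 9 / 10 ^ 14) * (I : ℝ))) :
    ∑ n ∈ (Ioc a b).filter (Rg j), ∑ u ∈ F.filter (fun u => u.2 ∣ n ∧ c n u),
      ∑ l ∈ (n / u.2).divisors, E.TT i u.1 * ((l : ℝ) ^ (-(1 / 2 : ℝ) - dd) *
        (((n / u.2 / l : ℕ) : ℝ))⁻¹) * ∏ p ∈ (u.1.primeFactors ∪ l.primeFactors) \ L, rho j p ≤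
      (2 : ℝ) ^ (-(1 / 2 + 7 / 10 ^ 14) * (I : ℝ)) := by
  have hj20 : 20 ≤ j := le_trans (by norm_num) hj
  set K : ℝ := (2 : ℝ) ^ (5 / 10 ^ 16 * (I : ℝ) + 4 - I) * (2 : ℝ) ^ (20 * ((I : ℝ) + 1) / j) with hK
  have hK0 : 0 ≤ K := by rw [hK]; positivity
  have hsub : ∀ n, Rg j n → ∀ u ∈ F, u.2 ∣ n → c n u →
      u.1.primeFactors ⊆ (n / u.2).primeFactors := by
    intro n hn u hu hun hcn
    exact Nat.primeFactors_mono (hc n u hcn) (Rg.of_dvd hn (Nat.div_dvd_of_dvd hun)).1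
  have h1 : ∑ n ∈ (Ioc a b).filter (Rg j), ∑ u ∈ F.filter (fun u => u.2 ∣ n ∧ c n u),
      ∑ l ∈ (n / u.2).divisors, E.TT i u.1 * ((l : ℝ) ^ (-(1 / 2 : ℝ) - dd) *
        (((n / u.2 / l : ℕ) : ℝ))⁻¹) * ∏ p ∈ (u.1.primeFactors ∪ l.primeFactors) \ L, rho j p ≤
      K * ∑ n ∈ (Ioc a b).filter (Rg j), ∑ u ∈ F.filter (fun u => u.2 ∣ n ∧ c n u ∧
        u.1.primeFactors ⊆ ∅ ∪ (n / u.2).primeFactors), QL L n ^ (1 / 2 - d1) := by
    rw [Finset.mul_sum]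
    apply Finset.sum_le_sum
    intro n hn
    have hn1 := Finset.mem_filter.1 hn
    have hn2 := Finset.mem_Ioc.1 hn1.1
    rw [Finset.mul_sum]
    have e1 : F.filter (fun u => u.2 ∣ n ∧ c n u) = F.filter (fun u => u.2 ∣ n ∧ c n u ∧
        u.1.primeFactors ⊆ ∅ ∪ (n / u.2).primeFactors) := by
      ext u
      simp only [Finset.mem_filter, Finset.empty_union]
      constructor
      · rintro ⟨h1, h2, h3⟩
        exact ⟨h1, h2, h3, hsub n hn1.2 u h1 h2 h3⟩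
      · rintro ⟨h1, h2, h3, _⟩
        exact ⟨h1, h2, h3⟩
    rw [e1]
    apply Finset.sum_le_sum
    intro u hu
    have hu1 := Finset.mem_filter.1 hu
    have h3 := inner_le hPW hF hj20 hi hn1.2 (by omega : 2 ^ I < n) (by omega) hu1.1 hu1.2.1 L
    have h4 : u.1.primeFactors \ (L ∪ (n / u.2).primeFactors) = ∅ := by
      rw [Finset.sdiff_eq_empty_iff_subset]
      exact (hsub n hn1.2 u hu1.1 hu1.2.1 hu1.2.2.1).trans Finset.subset_union_right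
    rw [h4, Finset.prod_empty, mul_one] at h3
    exact h3
  refine h1.trans ?_
  have hW : ∀ n, Rg j n → 0 ≤ QL L n ^ (1 / 2 - d1) := fun n hn => by
    linarith [QL_rpow_one_le L hn.1]
  have h2 := partB hF (L := ∅) hj20 hb (fun n => QL L n ^ (1 / 2 - d1)) hW c cc hcc
    (R := (2 : ℝ) ^ ((1 / 2 - 9 / 10 ^ 14) * (I : ℝ))) (by positivity) (by
      intro n _ u _ _ _ _ _
      rw [Finset.inter_empty, Finset.prod_empty]
      exact hR)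
  refine (mul_le_mul_of_nonneg_left h2 hK0).trans ?_
  have h3 := final_num (i := i) (I := I) (j := j) (P := 1) zero_le_one
    (Real.one_le_rpow (by norm_num) (by positivity)) hj hjI hiI (l := 1) zero_le_one le_rfl
  refine le_trans ?_ h3
  rw [← hK]
  apply mul_le_mul_of_nonneg_left _ hK0
  rw [Finset.card_empty]
  have h5 : (0 : ℝ) ≤ 1 * (2 : ℝ) ^ (-((i : ℝ) / 4000)) *
    (2 : ℝ) ^ ((1 / 2 + 1 / 10 ^ 11) * (I : ℝ)) := by positivity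
  norm_num at h5 ⊢
  linarith

theorem t_HDP (hFF : S_FF) (hPW : S_PW) (hF3 : S_F3) (hWC : S_WC) : S_HDP := by
  intro E k
  obtain ⟨J2, hJ2⟩ := hF3 E
  obtain ⟨J3, hJ3⟩ := hWC k
  refine ⟨J2 + J3 + E.i₁ + 10 ^ 17, fun j hj i I a b hji hjI ha hab hb hlen L hL hLc
    F x hFc => ?_⟩
  have hj17 : 10 ^ 17 ≤ j := by omega
  have hj20 : 20 ≤ j := le_trans (by norm_num) hj17
  have hi1 : 1 ≤ i := by omega
  have hiE : E.i₁ ≤ i := by omega
  have hF : Fct E j i F := by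
    rcases hFc with h | h
    · rw [h.1]; exact fct1 hFF E hji hiE
    · rw [h.1]; exact fct2 hFF E hji hiE
  by_cases hex : ∃ n ∈ (Ioc a b).filter (Rg j), ∃ u ∈ F, u.2 ∣ n ∧
      (2 : ℝ) ^ ((I : ℝ) / 10 ^ 6) ≤ (u.2 : ℝ)
  swap
  · have h0 : ∑ n ∈ (Ioc a b).filter (Rg j), ∑ u ∈ F.filter (fun u => u.2 ∣ n ∧
        (2 : ℝ) ^ ((I : ℝ) / 10 ^ 6) ≤ (u.2 : ℝ) ∧ (u.1 ∣ n / u.2 ∧
          (2 : ℝ) ^ (x * (i : ℝ)) ≤ ((n / u.2 / u.1 : ℕ) : ℝ))),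
        ∑ l ∈ (n / u.2).divisors, E.TT i u.1 * ((l : ℝ) ^ (-(1 / 2 : ℝ) - dd) *
        (((n / u.2 / l : ℕ) : ℝ))⁻¹) * ∏ p ∈ (u.1.primeFactors ∪ l.primeFactors) \ L, rho j p = 0 := by
      apply Finset.sum_eq_zero
      intro n hn
      apply Finset.sum_eq_zero
      intro u hu
      have h1 := Finset.mem_filter.1 hu
      exact absurd ⟨n, hn, u, h1.1, h1.2.1, h1.2.2.1⟩ hex
    rw [h0]
    positivity
  obtain ⟨n0, _, u0, hu0, _, hq0⟩ := hex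
  have hiI := scale_le hF hu0 hq0
  obtain ⟨c, hc⟩ : ∃ c : ℕ → ℕ × ℕ → Prop, ∀ n u, c n u ↔
      (2 : ℝ) ^ ((I : ℝ) / 10 ^ 6) ≤ (u.2 : ℝ) ∧ (u.1 ∣ n / u.2 ∧
          (2 : ℝ) ^ (x * (i : ℝ)) ≤ ((n / u.2 / u.1 : ℕ) : ℝ)) := ⟨_, fun _ _ => Iff.rfl⟩
  have hgoal : ∑ n ∈ (Ioc a b).filter (Rg j), ∑ u ∈ F.filter (fun u => u.2 ∣ n ∧ c n u),
      ∑ l ∈ (n / u.2).divisors, E.TT i u.1 * ((l : ℝ) ^ (-(1 / 2 : ℝ) - dd) *
        (((n / u.2 / l : ℕ) : ℝ))⁻¹) * ∏ p ∈ (u.1.primeFactors ∪ l.primeFactors) \ L, rho j p ≤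
      (2 : ℝ) ^ (-(1 / 2 + 7 / 10 ^ 14) * (I : ℝ)) := by
    have hF3' := hJ2 i I a b (by omega) (by omega) ha hab hb hlen
    have hWC' := hJ3 j (by omega) i I a b hji hjI hiI ha hab hb hlen L hL hLc
    rcases hFc with ⟨hFe, hx⟩ | ⟨hFe, hx⟩
    · subst hFe
      refine hdp_core hPW hF hj17 hjI hi1 ha hb hiI c (fun n u h => ((hc n u).1 h).2.1)
        (fun n s => s ∈ E.Act1 i ∧ (2 : ℝ) ^ (0.31 * (i : ℝ)) ≤ ((n / s : ℕ) : ℝ)) ?_ ?_
      · intro n u hu h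
        have h1 := (hc n u).1 h
        refine ⟨((hFF E i hiE).1 u hu).2.2.2.2.2.2.2, ?_⟩
        have h2 := h1.2.2
        rw [Nat.div_div_eq_div_mul, mul_comm u.2 u.1, hx] at h2
        exact h2
      · apply hWC'
        · intro y hy
          have h1 := mem_DD.1 hy
          exact ⟨h1.1.1.1, h1.2, h1.1.2.1⟩
        · refine le_trans ?_ hF3'.1
          have h3 : (DD j I a b 1 (fun n s => s ∈ E.Act1 i ∧
              (2 : ℝ) ^ (0.31 * (i : ℝ)) ≤ ((n / s : ℕ) : ℝ))).card ≤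
              (((Ioc a b) ×ˢ (range (2 ^ (I + 1) + 1))).filter
                (fun u => u.2 ∣ u.1 ∧ u.2 ∈ E.Act1 i ∧
      (2 : ℝ) ^ (0.31 * (i : ℝ)) ≤ ((u.1 / u.2 : ℕ) : ℝ))).card := by
            apply Finset.card_le_card
            intro y hy
            have h1 := mem_DD.1 hy
            rw [one_mul] at h1
            rw [Finset.mem_filter, Finset.mem_product, Finset.mem_range]
            exact ⟨h1.1.1, h1.1.2⟩
          exact_mod_cast h3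
    · subst hFe
      refine hdp_core hPW hF hj17 hjI hi1 ha hb hiI c (fun n u h => ((hc n u).1 h).2.1)
        (fun n s => s ∈ E.Act2 i ∧ (2 : ℝ) ^ (0.12 * (i : ℝ)) ≤ ((n / s : ℕ) : ℝ)) ?_ ?_
      · intro n u hu h
        have h1 := (hc n u).1 h
        refine ⟨((hFF E i hiE).2 u hu).2.2.2.2.2.2.2.2.2.2, ?_⟩
        have h2 := h1.2.2
        rw [Nat.div_div_eq_div_mul, mul_comm u.2 u.1, hx] at h2
        exact h2
      · apply hWC'
        · intro y hy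
          have h1 := mem_DD.1 hy
          exact ⟨h1.1.1.1, h1.2, h1.1.2.1⟩
        · refine le_trans ?_ hF3'.2
          have h3 : (DD j I a b 1 (fun n s => s ∈ E.Act2 i ∧
              (2 : ℝ) ^ (0.12 * (i : ℝ)) ≤ ((n / s : ℕ) : ℝ))).card ≤
              (((Ioc a b) ×ˢ (range (2 ^ (I + 1) + 1))).filter
                (fun u => u.2 ∣ u.1 ∧ u.2 ∈ E.Act2 i ∧
      (2 : ℝ) ^ (0.12 * (i : ℝ)) ≤ ((u.1 / u.2 : ℕ) : ℝ))).card := by
            apply Finset.card_le_card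
            intro y hy
            have h1 := mem_DD.1 hy
            rw [one_mul] at h1
            rw [Finset.mem_filter, Finset.mem_product, Finset.mem_range]
            exact ⟨h1.1.1, h1.1.2⟩
          exact_mod_cast h3
  refine le_trans (le_of_eq ?_) hgoal
  apply Finset.sum_congr rfl
  intro n _
  apply Finset.sum_congr _ (fun _ _ => rfl)
  ext u
  simp only [Finset.mem_filter, hc]

end Q36.KZ
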