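import Pool.Agent.Q36.KZ.Split

/-!
# Project KZ: HNP
-/

set_option autoImplicit false

namespace Q36.KZ

open Finset Filter Topology MeasureTheory
open scoped Classical
open Pool.Agent.W76.MO (hh nc cell lp Rough)
open Pool.Agent.Q18.KZ

theorem scale_le {E : KEnv} {j i I : ℕ} {F : Finset (ℕ × ℕ)} (hF : Fct E j i F) {u : ℕ × ℕ}
    (hu : u ∈ F) (hq : (2 : ℝ) ^ ((I : ℝ) / 10 ^ 6) ≤ (u.2 : ℝ)) :
    (I : ℝ) ≤ 10 ^ 6 * ((i : ℝ) + 1) := by
  have h1 : (u.2 : ℝ) ≤ (2 : ℝ) ^ ((i : ℝ) + 1) := by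
    rw [show ((i : ℝ) + 1) = ((i + 1 : ℕ) : ℝ) by push_cast; ring, Real.rpow_natCast]
    have h2 := hF.up u hu
    have h3 : u.2 ≤ u.1 * u.2 := Nat.le_mul_of_pos_left _ (by have := hF.one u hu; omega)
    exact_mod_cast h3.trans h2
  have h5 := hq.trans h1
  rw [Real.rpow_le_rpow_left_iff (by norm_num), div_le_iff₀ (by norm_num)] at h5
  linarith

/-- the final numerical inequality -/
theorem final_num {i I j : ℕ} {P : ℝ} (hP0 : 0 ≤ P) (hP : P ≤ (2 : ℝ) ^ (1 / 10 ^ 15 * (I : ℝ)))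
    (hj : 10 ^ 17 ≤ j) (hjI : j ≤ I) (hiI : (I : ℝ) ≤ 10 ^ 6 * ((i : ℝ) + 1)) {l : ℝ} (hl0 : 0 ≤ l)
    (hl : l ≤ P) :
    (2 : ℝ) ^ (5 / 10 ^ 16 * (I : ℝ) + 4 - I) * (2 : ℝ) ^ (20 * ((I : ℝ) + 1) / j) *
        (P * (2 : ℝ) ^ (-((i : ℝ) / 4000)) * (2 : ℝ) ^ ((1 / 2 + 1 / 10 ^ 11) * (I : ℝ)) +
        l * ((2 : ℝ) ^ (20 * ((I : ℝ) + 1) / j) *
          (2 : ℝ) ^ ((1 / 2 - 9 / 10 ^ 14) * (I : ℝ)))) ≤
      (2 : ℝ) ^ (-(1 / 2 + 7 / 10 ^ 14) * (I : ℝ)) := by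
  have hj' : (10 : ℝ) ^ 17 ≤ j := by exact_mod_cast hj
  have hI' : (10 : ℝ) ^ 17 ≤ I := hj'.trans (by exact_mod_cast hjI)
  have hτ : 20 * ((I : ℝ) + 1) / j ≤ 1 / 10 ^ 15 * (I : ℝ) := by
    rw [div_le_iff₀ (by linarith)]
    nlinarith
  have hM : (2 : ℝ) ^ (20 * ((I : ℝ) + 1) / j) ≤ (2 : ℝ) ^ (1 / 10 ^ 15 * (I : ℝ)) :=
    Real.rpow_le_rpow_of_exponent_le (by norm_num) hτ
  have hlP := hl.trans hP
  have h1 : (2 : ℝ) ^ (5 / 10 ^ 16 * (I : ℝ) + 4 - I) * (2 : ℝ) ^ (20 * ((I : ℝ) + 1) / j) *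
        (P * (2 : ℝ) ^ (-((i : ℝ) / 4000)) * (2 : ℝ) ^ ((1 / 2 + 1 / 10 ^ 11) * (I : ℝ)) +
        l * ((2 : ℝ) ^ (20 * ((I : ℝ) + 1) / j) *
          (2 : ℝ) ^ ((1 / 2 - 9 / 10 ^ 14) * (I : ℝ)))) ≤
      (2 : ℝ) ^ (5 / 10 ^ 16 * (I : ℝ) + 4 - I) * (2 : ℝ) ^ (1 / 10 ^ 15 * (I : ℝ)) *
        ((2 : ℝ) ^ (1 / 10 ^ 15 * (I : ℝ)) * (2 : ℝ) ^ (-((i : ℝ) / 4000)) *
          (2 : ℝ) ^ ((1 / 2 + 1 / 10 ^ 11) * (I : ℝ)) +
        (2 : ℝ) ^ (1 / 10 ^ 15 * (I : ℝ)) * ((2 : ℝ) ^ (1 / 10 ^ 15 * (I : ℝ)) *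
          (2 : ℝ) ^ ((1 / 2 - 9 / 10 ^ 14) * (I : ℝ)))) := by
    gcongr
  refine h1.trans ?_
  have e1 : (2 : ℝ) ^ (5 / 10 ^ 16 * (I : ℝ) + 4 - I) * (2 : ℝ) ^ (1 / 10 ^ 15 * (I : ℝ)) *
        ((2 : ℝ) ^ (1 / 10 ^ 15 * (I : ℝ)) * (2 : ℝ) ^ (-((i : ℝ) / 4000)) *
          (2 : ℝ) ^ ((1 / 2 + 1 / 10 ^ 11) * (I : ℝ)) +
        (2 : ℝ) ^ (1 / 10 ^ 15 * (I : ℝ)) * ((2 : ℝ) ^ (1 / 10 ^ 15 * (I : ℝ)) *
          (2 : ℝ) ^ ((1 / 2 - 9 / 10 ^ 14) * (I : ℝ)))) =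
      (2 : ℝ) ^ ((5 / 10 ^ 16 * (I : ℝ) + 4 - I) + 1 / 10 ^ 15 * (I : ℝ) +
        (1 / 10 ^ 15 * (I : ℝ) + -((i : ℝ) / 4000) + (1 / 2 + 1 / 10 ^ 11) * (I : ℝ))) +
      (2 : ℝ) ^ ((5 / 10 ^ 16 * (I : ℝ) + 4 - I) + 1 / 10 ^ 15 * (I : ℝ) +
        (1 / 10 ^ 15 * (I : ℝ) + (1 / 10 ^ 15 * (I : ℝ) + (1 / 2 - 9 / 10 ^ 14) * (I : ℝ)))) := by
    have h2 : (0 : ℝ) < 2 := by norm_num
    rw [mul_add]
    simp only [Real.rpow_add h2]
  rw [e1]
  have e2 : (2 : ℝ) ^ (-(1 / 2 + 7 / 10 ^ 14) * (I : ℝ)) =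
      (2 : ℝ) ^ (-(1 / 2 + 7 / 10 ^ 14) * (I : ℝ) - 1) +
        (2 : ℝ) ^ (-(1 / 2 + 7 / 10 ^ 14) * (I : ℝ) - 1) := by
    rw [← two_mul, Real.rpow_sub (by norm_num), Real.rpow_one]
    ring
  rw [e2]
  apply add_le_add
  · apply Real.rpow_le_rpow_of_exponent_le (by norm_num)
    norm_num
    linarith
  · apply Real.rpow_le_rpow_of_exponent_le (by norm_num)
    norm_num
    linarith

theorem card_pow_le {k I j : ℕ} {L : Finset ℕ} (hj : 20 ≤ j)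
    (hLc : (L.card : ℝ) * j ≤ k * (I + 1)) : ((L.card : ℝ) + 1) ^ 3 ≤
    ((I : ℝ) + 1) * (((k : ℝ) + 1) * ((I : ℝ) + 1) + 1) ^ 3 := by
  have hI0 : (0 : ℝ) ≤ I := Nat.cast_nonneg I
  have hk0 : (0 : ℝ) ≤ k := Nat.cast_nonneg k
  have h8 : (0 : ℝ) ≤ L.card := Nat.cast_nonneg _
  have hj1 : (1 : ℝ) ≤ j := by
    have : (20 : ℝ) ≤ j := by exact_mod_cast hj
    linarith
  have hLk : (L.card : ℝ) ≤ k * (I + 1) := by nlinarith
  have h1 : ((L.card : ℝ) + 1) ^ 3 ≤ (((k : ℝ) + 1) * ((I : ℝ) + 1) + 1) ^ 3 := by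
    apply pow_le_pow_left₀ (by positivity)
    nlinarith
  refine h1.trans ?_
  apply le_mul_of_one_le_left (by positivity)
  linarith

theorem t_HNP (hFF : S_FF) (hPW : S_PW) (hF1 : S_F1) (hF2 : S_F2) (hWC : S_WC) (hRCL : S_RCL) :
    S_HNP := by
  intro E k
  obtain ⟨J1, hJ1⟩ := hF1 E
  obtain ⟨J2, hJ2⟩ := hF2 E
  obtain ⟨J3, hJ3⟩ := hWC k
  obtain ⟨J4, hJ4⟩ := hRCL (1 / 10 ^ 11) k (by norm_num)
  obtain ⟨J5, hJ5⟩ := poly_le k (c := 1 / 10 ^ 15) (by norm_num)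
  refine ⟨J1 + J2 + J3 + J4 + J5 + E.i₁ + 10 ^ 17, fun j hj i I a b hji hjI ha hab hb hlen L hL hLc
    F hFc => ?_⟩
  have hj17 : 10 ^ 17 ≤ j := by omega
  have hj20 : 20 ≤ j := le_trans (by norm_num) hj17
  have hi1 : 1 ≤ i := by omega
  have hiE : E.i₁ ≤ i := by omega
  have hF : Fct E j i F := by
    rcases hFc with h | h
    · rw [h.1]; exact fct1 hFF E hji hiE
    · rw [h]; exact fct2 hFF E hji hiE
  by_cases hex : ∃ n ∈ (Ioc a b).filter (Rg j), ∃ u ∈ F, u.2 ∣ n ∧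
      (2 : ℝ) ^ ((I : ℝ) / 10 ^ 6) ≤ (u.2 : ℝ)
  swap
  · have h0 : ∑ n ∈ (Ioc a b).filter (Rg j), ∑ u ∈ F.filter (fun u => u.2 ∣ n ∧
        (2 : ℝ) ^ ((I : ℝ) / 10 ^ 6) ≤ (u.2 : ℝ) ∧ ¬ u.1 ∣ n / u.2),
        ∑ l ∈ (n / u.2).divisors, E.TT i u.1 * ((l : ℝ) ^ (-(1 / 2 : ℝ) - dd) *
        (((n / u.2 / l : ℕ) : ℝ))⁻¹) * ∏ p ∈ (u.1.primeFactors ∪ l.primeFactors) \ L, rho j p = 0 := by
      apply Finset.sum_eq_zero
      intro n hn
      apply Finset.sum_eq_zero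
      intro u hu
      have h1 := Finset.mem_filter.1 hu
      exact absurd ⟨n, hn, u, h1.1, h1.2.1, h1.2.2.1⟩ hex
    rw [h0]
    positivity
  obtain ⟨n0, _, u0, hu0, _, hq0⟩ := hex
  have hiI := scale_le hF hu0 hq0
  obtain ⟨c, hc⟩ : ∃ c : ℕ → ℕ × ℕ → Prop, ∀ n u, c n u ↔
      (2 : ℝ) ^ ((I : ℝ) / 10 ^ 6) ≤ (u.2 : ℝ) ∧ ¬ u.1 ∣ n / u.2 := ⟨_, fun _ _ => Iff.rfl⟩
  have hQ := hJ4 j (by omega) I a b (by omega) ha hab (hb.trans (Nat.pow_le_pow_right (by norm_num)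
    (by omega))) hlen L hL hLc
  have hmain := main_split hPW hF hj20 hi1 ha hb hLc (B := (2 : ℝ) ^ (-((i : ℝ) / 4000)))
    (by positivity) (hJ1 i (by omega)) c hQ
  have hR0 : (0 : ℝ) ≤ (2 : ℝ) ^ ((1 / 2 - 9 / 10 ^ 14) * (I : ℝ)) := by positivity
  have hB : ∑ n ∈ (Ioc a b).filter (Rg j), ∑ u ∈ F.filter (fun u => u.2 ∣ n ∧ c n u ∧
      u.1.primeFactors ⊆ L ∪ (n / u.2).primeFactors), QL L n ^ (1 / 2 - d1) ≤
      ((L.card : ℝ) + 1) ^ 3 * ((2 : ℝ) ^ (20 * ((I : ℝ) + 1) / j) *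
        (2 : ℝ) ^ ((1 / 2 - 9 / 10 ^ 14) * (I : ℝ))) := by
    have hW : ∀ n, Rg j n → 0 ≤ QL L n ^ (1 / 2 - d1) := fun n hn => by
      linarith [QL_rpow_one_le L hn.1]
    rcases hFc with ⟨hF1', hI'⟩ | hF2'
    · subst hF1'
      refine partB hF hj20 hb (fun n => QL L n ^ (1 / 2 - d1)) hW c
        (fun _ s => s ∈ E.Act1 i) ?_ hR0 ?_
      · intro n u hu _
        exact ((hFF E i hiE).1 u hu).2.2.2.2.2.2.2
      · intro n hn u hu hun hcn hnR hsub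
        rw [hc] at hcn
        have hff := (hFF E i hiE).1 u hu
        have hpf : u.1.primeFactors = {u.1} := hff.1.primeFactors
        have hmemL : u.1 ∈ L := by
          have h1 : u.1 ∈ L ∪ (n / u.2).primeFactors := hsub (by rw [hpf]; simp)
          rcases Finset.mem_union.1 h1 with h | h
          · exact h
          · exact absurd (Nat.dvd_of_mem_primeFactors h) hcn.2
        have hg : ∏ p ∈ u.1.primeFactors ∩ L, p = u.1 := by
          rw [hpf, Finset.singleton_inter_of_mem hmemL, Finset.prod_singleton]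
        rw [hg]
        apply hJ3 j (by omega) i I a b hji hjI hiI ha hab hb hlen L hL hLc
        · intro y hy
          have h1 := mem_DD.1 hy
          exact ⟨h1.1.1.1, h1.2, h1.1.2.1⟩
        · have h2 := (hJ2 i I a b u.1 (by omega) (by omega) ha hab hb hlen).1 hff.2.2.1 hI'
          refine le_trans ?_ h2
          have h3 : (DD j I a b u.1 (fun _ s => s ∈ E.Act1 i)).card ≤
              (((Ioc a b) ×ˢ (range (2 ^ (I + 1) + 1))).filter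
                (fun y => y.2 ∣ y.1 ∧ u.1 * y.2 ∈ E.Act1 i)).card := by
            apply Finset.card_le_card
            intro y hy
            have h1 := mem_DD.1 hy
            rw [Finset.mem_filter, Finset.mem_product, Finset.mem_range]
            exact ⟨h1.1.1, h1.1.2⟩
          exact_mod_cast h3
    · subst hF2'
      refine partB hF hj20 hb (fun n => QL L n ^ (1 / 2 - d1)) hW c
        (fun _ s => s ∈ E.Act2 i) ?_ hR0 ?_
      · intro n u hu _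
        exact ((hFF E i hiE).2 u hu).2.2.2.2.2.2.2.2.2.2
      · intro n hn u hu hun hcn hnR hsub
        rw [hc] at hcn
        have hff := (hFF E i hiE).2 u hu
        have hex2 : ∃ p ∈ u.1.primeFactors, p ∈ L := by
          by_contra hno
          push Not at hno
          apply hcn.2
          rw [← Nat.prod_primeFactors_of_squarefree hff.1]
          refine (Finset.prod_dvd_prod_of_subset _ _ _ ?_).trans
            (Nat.prod_primeFactors_dvd (n / u.2))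
          intro p hp
          rcases Finset.mem_union.1 (hsub hp) with h | h
          · exact absurd h (hno p hp)
          · exact h
        obtain ⟨p0, hp0, hp0L⟩ := hex2
        have hgd := prod_inter_dvd hff.1 L
        have hgpos : 0 < ∏ p ∈ u.1.primeFactors ∩ L, p := Finset.prod_pos fun p hp =>
          (Nat.prime_of_mem_primeFactors (Finset.mem_inter.1 hp).1).pos
        have hp0d : p0 ∣ ∏ p ∈ u.1.primeFactors ∩ L, p :=
          Finset.dvd_prod_of_mem _ (Finset.mem_inter.2 ⟨hp0, hp0L⟩)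
        have hlow : (2 : ℝ) ^ (0.24 * (i : ℝ)) ≤ ((∏ p ∈ u.1.primeFactors ∩ L, p : ℕ) : ℝ) := by
          refine (hff.2.2.2.2.1 p0 (Nat.prime_of_mem_primeFactors hp0)
            (Nat.dvd_of_mem_primeFactors hp0)).trans ?_
          exact_mod_cast Nat.le_of_dvd hgpos hp0d
        have hup : ((∏ p ∈ u.1.primeFactors ∩ L, p : ℕ) : ℝ) ≤ (2 : ℝ) ^ (0.76 * (i : ℝ)) := by
          have h1 : ((∏ p ∈ u.1.primeFactors ∩ L, p : ℕ) : ℝ) ≤ (u.1 : ℝ) := by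
            exact_mod_cast Nat.le_of_dvd (by omega) hgd
          refine (h1.trans hff.2.2.2.2.2.2.1).trans ?_
          apply Real.rpow_le_rpow_of_exponent_le (by norm_num)
          have h2 : (10 : ℝ) ^ 17 ≤ i := by exact_mod_cast hj17.trans hji
          norm_num
          linarith
        apply hJ3 j (by omega) i I a b hji hjI hiI ha hab hb hlen L hL hLc
        · intro y hy
          have h1 := mem_DD.1 hy
          exact ⟨h1.1.1.1, h1.2, h1.1.2.1⟩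
        · have h2 := (hJ2 i I a b (∏ p ∈ u.1.primeFactors ∩ L, p) (by omega) (by omega) ha hab hb
            hlen).2 hlow hup
          refine le_trans ?_ h2
          have h3 : (DD j I a b (∏ p ∈ u.1.primeFactors ∩ L, p) (fun _ s => s ∈ E.Act2 i)).card ≤
              (((Ioc a b) ×ˢ (range (2 ^ (I + 1) + 1))).filter
                (fun y => y.2 ∣ y.1 ∧ (∏ p ∈ u.1.primeFactors ∩ L, p) * y.2 ∈ E.Act2 i)).card := by
            apply Finset.card_le_card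
            intro y hy
            have h1 := mem_DD.1 hy
            rw [Finset.mem_filter, Finset.mem_product, Finset.mem_range]
            exact ⟨h1.1.1, h1.1.2⟩
          exact_mod_cast h3
  have hP := hJ5 I (by omega)
  have hfin := final_num (i := i) (I := I) (j := j) (by positivity) hP hj17 hjI hiI
    (l := ((L.card : ℝ) + 1) ^ 3) (by positivity) (card_pow_le hj20 hLc)
  refine le_trans ?_ hfin
  refine le_trans (le_of_eq ?_) (hmain.trans ?_)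
  · apply Finset.sum_congr rfl
    intro n _
    apply Finset.sum_congr _ (fun _ _ => rfl)
    ext u
    simp only [Finset.mem_filter, hc]
  · apply mul_le_mul_of_nonneg_left _ (by positivity)
    exact add_le_add le_rfl hB

end Q36.KZ
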