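import Pool.Agent.Q18.KZ.S2

/-!
# Project KZ: base lemmas for HNP and HDP
-/

set_option autoImplicit false

namespace Q36.KZ

open Finset Filter Topology MeasureTheory
open scoped Classical
open Pool.Agent.W76.MO (hh nc cell lp Rough)
open Pool.Agent.Q18.KZ

/-! ### elementary counting -/

theorem two_pow_len {j n : ℕ} (hn : Rg j n) : (2 ^ (j / 10)) ^ n.primeFactorsList.length ≤ n := by
  have h1 : ∀ l : List ℕ, (∀ p ∈ l, 2 ^ (j / 10) ≤ p) → (2 ^ (j / 10)) ^ l.length ≤ l.prod := by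
    intro l
    induction l with
    | nil => simp
    | cons a l ih =>
      intro h
      rw [List.length_cons, List.prod_cons, pow_succ, mul_comm]
      exact Nat.mul_le_mul (h a (by simp)) (ih fun p hp => h p (by simp [hp]))
  have h2 := h1 n.primeFactorsList fun p hp =>
    hn.2 p (Nat.prime_of_mem_primeFactorsList hp) (Nat.dvd_of_mem_primeFactorsList hp)
  rwa [Nat.prod_primeFactorsList hn.1] at h2

theorem len_le {j n I : ℕ} (hj : 20 ≤ j) (hn : Rg j n) (hI : n ≤ 2 ^ (I + 1)) :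
    n.primeFactorsList.length * j ≤ 20 * (I + 1) := by
  have h1 := (two_pow_len hn).trans hI
  rw [← pow_mul] at h1
  have h2 : j / 10 * n.primeFactorsList.length ≤ I + 1 :=
    (Nat.pow_le_pow_iff_right (by norm_num)).1 h1
  have h3 : j ≤ 20 * (j / 10) := by omega
  calc n.primeFactorsList.length * j ≤ n.primeFactorsList.length * (20 * (j / 10)) :=
        Nat.mul_le_mul_left _ h3
    _ = 20 * (j / 10 * n.primeFactorsList.length) := by ring
    _ ≤ 20 * (I + 1) := Nat.mul_le_mul_left _ h2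

theorem card_pf_le (n : ℕ) : n.primeFactors.card ≤ n.primeFactorsList.length := by
  unfold Nat.primeFactors
  exact List.toFinset_card_le _

theorem card_div_le {n : ℕ} (hn : n ≠ 0) : n.divisors.card ≤ 2 ^ n.primeFactorsList.length := by
  rw [Nat.card_divisors hn]
  have h1 : n.primeFactorsList.length = ∑ p ∈ n.primeFactors, n.factorization p := by
    have h2 := ArithmeticFunction.cardFactors_eq_sum_factorization (n := n)
    rw [ArithmeticFunction.cardFactors_apply] at h2
    rw [h2]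
    rfl
  rw [h1, ← Finset.prod_pow_eq_pow_sum]
  apply Finset.prod_le_prod'
  intro p _
  exact Nat.succ_le_of_lt Nat.lt_two_pow_self

/-- the number of divisors, in real form -/
theorem tau_le {j n I : ℕ} (hj : 20 ≤ j) (hn : Rg j n) (hI : n ≤ 2 ^ (I + 1)) :
    (n.divisors.card : ℝ) ≤ (2 : ℝ) ^ (20 * ((I : ℝ) + 1) / j) := by
  have h1 : (n.divisors.card : ℝ) ≤ (2 : ℝ) ^ ((n.primeFactorsList.length : ℕ) : ℝ) := by
    rw [Real.rpow_natCast]
    exact_mod_cast card_div_le hn.1
  refine h1.trans (Real.rpow_le_rpow_of_exponent_le (by norm_num) ?_)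
  have hj0 : (0 : ℝ) < j := by
    have : (20 : ℝ) ≤ j := by exact_mod_cast hj
    linarith
  rw [le_div_iff₀ hj0]
  exact_mod_cast len_le hj hn hI

theorem Rg.of_dvd {j m n : ℕ} (hn : Rg j n) (h : m ∣ n) : Rg j m :=
  ⟨fun h0 => hn.1 (by rw [h0] at h; exact zero_dvd_iff.1 h), fun p hp hpm => hn.2 p hp (hpm.trans h)⟩

theorem tau_dvd_le {j n m I : ℕ} (hj : 20 ≤ j) (hn : Rg j n) (hI : n ≤ 2 ^ (I + 1)) (h : m ∣ n) :
    (m.divisors.card : ℝ) ≤ (2 : ℝ) ^ (20 * ((I : ℝ) + 1) / j) :=
  tau_le hj (Rg.of_dvd hn h) ((Nat.le_of_dvd (Nat.pos_of_ne_zero hn.1) h).trans hI)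

theorem pf_card_le {j n I : ℕ} (hj : 20 ≤ j) (hn : Rg j n) (hI : n ≤ 2 ^ (I + 1)) :
    (n.primeFactors.card : ℝ) ≤ (I : ℝ) + 1 := by
  have h1 := len_le hj hn hI
  have h2 := card_pf_le n
  have h3 : n.primeFactorsList.length ≤ I + 1 := by
    by_contra h
    push Not at h
    have h5 : (I + 2) * 20 ≤ n.primeFactorsList.length * j := Nat.mul_le_mul h hj
    omega
  exact_mod_cast h2.trans h3

/-! ### the weight `QL` -/

theorem QL_one_le (L : Finset ℕ) {n : ℕ} (hn : n ≠ 0) : 1 ≤ QL L n := by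
  unfold QL
  have : (1 : ℝ) = ∏ p ∈ n.primeFactors, (1 : ℝ) := by simp
  rw [this]
  apply Finset.prod_le_prod
  · intro p _; norm_num
  · intro p hp
    have h1 : (1 : ℝ) ≤ p := by exact_mod_cast (Nat.prime_of_mem_primeFactors hp).one_lt.le
    split_ifs
    · exact one_le_pow₀ h1
    · exact one_le_pow₀ h1

theorem QL_mono (L : Finset ℕ) {m n : ℕ} (hn : n ≠ 0) (h : m ∣ n) : QL L m ≤ QL L n := by
  unfold QL
  have hsub : m.primeFactors ⊆ n.primeFactors := Nat.primeFactors_mono h hn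
  have h1 : ∏ p ∈ m.primeFactors, (if p ∈ L then (p : ℝ) ^ (m.factorization p) else
      (p : ℝ) ^ (m.factorization p - 1)) ≤ ∏ p ∈ m.primeFactors, (if p ∈ L then
      (p : ℝ) ^ (n.factorization p) else (p : ℝ) ^ (n.factorization p - 1)) := by
    apply Finset.prod_le_prod
    · intro p _
      split_ifs <;> positivity
    · intro p hp
      have h1 : (1 : ℝ) ≤ p := by exact_mod_cast (Nat.prime_of_mem_primeFactors hp).one_lt.le
      have h2 : m.factorization p ≤ n.factorization p :=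
        (Nat.factorization_le_iff_dvd (fun h0 => hn (by rw [h0] at h; exact zero_dvd_iff.1 h)) hn).2 h p
      split_ifs
      · exact pow_le_pow_right₀ h1 h2
      · exact pow_le_pow_right₀ h1 (by omega)
  refine h1.trans ?_
  rw [← Finset.prod_sdiff hsub]
  apply le_mul_of_one_le_left
  · apply Finset.prod_nonneg
    intro p hp
    split_ifs <;> positivity
  · have : (1 : ℝ) = ∏ p ∈ n.primeFactors \ m.primeFactors, (1 : ℝ) := by simp
    rw [this]
    apply Finset.prod_le_prod
    · intro p _; norm_num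
    · intro p hp
      have h1 : (1 : ℝ) ≤ p := by
        exact_mod_cast (Nat.prime_of_mem_primeFactors (Finset.mem_sdiff.1 hp).1).one_lt.le
      split_ifs
      · exact one_le_pow₀ h1
      · exact one_le_pow₀ h1

theorem QL_rpow_one_le (L : Finset ℕ) {n : ℕ} (hn : n ≠ 0) : 1 ≤ QL L n ^ (1 / 2 - d1) := by
  apply Real.one_le_rpow (QL_one_le L hn)
  unfold d1; norm_num

theorem QL_rpow_le_sqrt (L : Finset ℕ) {n : ℕ} (hn : n ≠ 0) :
    QL L n ^ (1 / 2 - d1) ≤ Real.sqrt (QL L n) := by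
  rw [Real.sqrt_eq_rpow]
  apply Real.rpow_le_rpow_of_exponent_le (QL_one_le L hn)
  unfold d1; norm_num

theorem QL_rpow_mono (L : Finset ℕ) {m n : ℕ} (hn : n ≠ 0) (h : m ∣ n) :
    QL L m ^ (1 / 2 - d1) ≤ QL L n ^ (1 / 2 - d1) := by
  have hm : m ≠ 0 := fun h0 => hn (by rw [h0] at h; exact zero_dvd_iff.1 h)
  apply Real.rpow_le_rpow (by linarith [QL_one_le L hm]) (QL_mono L hn h)
  unfold d1; norm_num

end Q36.KZ
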