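import Pool.Agent.Q36.KZ.Base

/-!
# Project KZ: the core estimate for HNP and HDP
-/

set_option autoImplicit false

namespace Q36.KZ

open Finset Filter Topology MeasureTheory
open scoped Classical
open Pool.Agent.W76.MO (hh nc cell lp Rough)
open Pool.Agent.Q18.KZ

theorem rho_nonneg (j p : ℕ) : 0 ≤ rho j p := by
  unfold rho
  split_ifs
  · positivity
  · exact le_rfl

theorem rho_le_one (j p : ℕ) : rho j p ≤ 1 := by
  unfold rho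
  split_ifs with h
  · apply Real.rpow_le_one_of_one_le_of_nonpos
    · exact_mod_cast h.1.one_lt.le
    · unfold d1; norm_num
  · exact zero_le_one

theorem prod_rho_anti (j : ℕ) {A B : Finset ℕ} (h : A ⊆ B) :
    ∏ p ∈ B, rho j p ≤ ∏ p ∈ A, rho j p := by
  rw [← Finset.prod_sdiff h]
  apply mul_le_of_le_one_left (Finset.prod_nonneg fun p _ => rho_nonneg j p)
  exact Finset.prod_le_one (fun p _ => rho_nonneg j p) fun p _ => rho_le_one j p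

theorem prod_rho_nonneg (j : ℕ) (A : Finset ℕ) : 0 ≤ ∏ p ∈ A, rho j p :=
  Finset.prod_nonneg fun p _ => rho_nonneg j p

theorem core_sum (hPW : S_PW) {j n q m : ℕ} {L : Finset ℕ} (hn : Rg j n) (hq : q ∣ n) {T : ℝ}
    (hT : 0 ≤ T) :
    ∑ l ∈ (n / q).divisors, T * ((l : ℝ) ^ (-(1 / 2 : ℝ) - dd) * (((n / q / l : ℕ) : ℝ))⁻¹) *
      ∏ p ∈ (m.primeFactors ∪ l.primeFactors) \ L, rho j p ≤
    T * (((n / q : ℕ) : ℝ))⁻¹ * ((n / q).divisors.card : ℝ) * QL L n ^ (1 / 2 - d1) *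
      ∏ p ∈ m.primeFactors \ (L ∪ (n / q).primeFactors), rho j p := by
  have hq0 : 0 < q := Nat.pos_of_ne_zero fun h0 => hn.1 (by rw [h0] at hq; exact zero_dvd_iff.1 hq)
  have hnq : n / q ∣ n := Nat.div_dvd_of_dvd hq
  have hR : Rg j (n / q) := Rg.of_dvd hn hnq
  have hterm : ∀ l ∈ (n / q).divisors, T * ((l : ℝ) ^ (-(1 / 2 : ℝ) - dd) *
      (((n / q / l : ℕ) : ℝ))⁻¹) * ∏ p ∈ (m.primeFactors ∪ l.primeFactors) \ L, rho j p ≤
      T * (((n / q : ℕ) : ℝ))⁻¹ * QL L n ^ (1 / 2 - d1) *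
        ∏ p ∈ m.primeFactors \ (L ∪ (n / q).primeFactors), rho j p := by
    intro l hl
    have hld : l ∣ n / q := Nat.dvd_of_mem_divisors hl
    have hsub : (l.primeFactors \ L) ∪ (m.primeFactors \ (L ∪ (n / q).primeFactors)) ⊆
        (m.primeFactors ∪ l.primeFactors) \ L := by
      intro p hp
      simp only [Finset.mem_union, Finset.mem_sdiff] at hp ⊢
      tauto
    have hdis : Disjoint (l.primeFactors \ L) (m.primeFactors \ (L ∪ (n / q).primeFactors)) := by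
      rw [Finset.disjoint_left]
      intro p hp hp'
      simp only [Finset.mem_union, Finset.mem_sdiff] at hp hp'
      exact hp'.2 (Or.inr (Nat.primeFactors_mono hld hR.1 hp.1))
    have h1 := prod_rho_anti j hsub
    rw [Finset.prod_union hdis] at h1
    have h2 := hPW j (n / q) l L hR hld
    have h3 : (l : ℝ) ^ (-(dd - d1)) ≤ 1 := by
      apply Real.rpow_le_one_of_one_le_of_nonpos
      · exact_mod_cast Nat.pos_of_mem_divisors hl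
      · unfold dd d1; norm_num
    have h4 : (l : ℝ) ^ (-(1 / 2 : ℝ) - dd) * (((n / q / l : ℕ) : ℝ))⁻¹ *
        ∏ p ∈ l.primeFactors \ L, rho j p ≤ (((n / q : ℕ) : ℝ))⁻¹ * QL L n ^ (1 / 2 - d1) := by
      refine h2.trans ?_
      have h5 := QL_rpow_mono L hn.1 hnq
      have h6 : (0 : ℝ) ≤ (((n / q : ℕ) : ℝ))⁻¹ := by positivity
      have h7 : 0 ≤ QL L (n / q) ^ (1 / 2 - d1) := by
        linarith [QL_rpow_one_le L hR.1]
      calc (((n / q : ℕ) : ℝ))⁻¹ * (l : ℝ) ^ (-(dd - d1)) * QL L (n / q) ^ (1 / 2 - d1) ≤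
            (((n / q : ℕ) : ℝ))⁻¹ * 1 * QL L (n / q) ^ (1 / 2 - d1) := by gcongr
        _ ≤ (((n / q : ℕ) : ℝ))⁻¹ * QL L n ^ (1 / 2 - d1) := by
            rw [mul_one]; gcongr
    have h8 : 0 ≤ (l : ℝ) ^ (-(1 / 2 : ℝ) - dd) * (((n / q / l : ℕ) : ℝ))⁻¹ := by positivity
    calc T * ((l : ℝ) ^ (-(1 / 2 : ℝ) - dd) * (((n / q / l : ℕ) : ℝ))⁻¹) *
          ∏ p ∈ (m.primeFactors ∪ l.primeFactors) \ L, rho j p
        ≤ T * ((l : ℝ) ^ (-(1 / 2 : ℝ) - dd) * (((n / q / l : ℕ) : ℝ))⁻¹) *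
          ((∏ p ∈ l.primeFactors \ L, rho j p) *
            ∏ p ∈ m.primeFactors \ (L ∪ (n / q).primeFactors), rho j p) :=
          mul_le_mul_of_nonneg_left h1 (mul_nonneg hT h8)
      _ = T * ((l : ℝ) ^ (-(1 / 2 : ℝ) - dd) * (((n / q / l : ℕ) : ℝ))⁻¹ *
          ∏ p ∈ l.primeFactors \ L, rho j p) *
            ∏ p ∈ m.primeFactors \ (L ∪ (n / q).primeFactors), rho j p := by ring
      _ ≤ T * ((((n / q : ℕ) : ℝ))⁻¹ * QL L n ^ (1 / 2 - d1)) *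
            ∏ p ∈ m.primeFactors \ (L ∪ (n / q).primeFactors), rho j p :=
          mul_le_mul_of_nonneg_right (mul_le_mul_of_nonneg_left h4 hT) (prod_rho_nonneg j _)
      _ = _ := by ring
  refine (Finset.sum_le_sum hterm).trans ?_
  rw [Finset.sum_const, nsmul_eq_mul]
  apply le_of_eq
  ring

theorem hh_ge {δ : ℝ} {i : ℕ} : (2 : ℝ) ^ ((1 / 2 - δ) * i - 1) ≤ (hh δ i : ℝ) := by
  unfold hh
  push_cast
  rw [← Real.rpow_natCast]
  apply Real.rpow_le_rpow_of_exponent_le (by norm_num)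
  have := Nat.lt_floor_add_one ((1 / 2 - δ) * (i : ℝ))
  linarith

theorem hh_pos {δ : ℝ} {i : ℕ} : (0 : ℝ) < (hh δ i : ℝ) := by
  unfold hh; positivity

theorem TT_nonneg (E : KEnv) (i m : ℕ) : 0 ≤ E.TT i m := by
  unfold KEnv.TT ww
  positivity

theorem TT_le (E : KEnv) {i I n q m : ℕ} (hi : 1 ≤ i) (hq : q ∣ n) (hq0 : 0 < q) (hm : 1 ≤ m)
    (hmq : m * q ≤ 2 ^ (i + 1)) (hn : 2 ^ I < n) :
    E.TT i m * (((n / q : ℕ) : ℝ))⁻¹ ≤ (2 : ℝ) ^ ((E.δ / 2 + (dd - d1)) * i + 3 - I) := by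
  have hq' : (0 : ℝ) < q := by exact_mod_cast hq0
  have hm' : (1 : ℝ) ≤ m := by exact_mod_cast hm
  have hn' : (2 : ℝ) ^ (I : ℝ) ≤ n := by
    rw [Real.rpow_natCast]; exact_mod_cast hn.le
  have hn0 : (0 : ℝ) < n := lt_of_lt_of_le (by positivity) hn'
  have hmq' : (m : ℝ) * q ≤ (2 : ℝ) ^ ((i : ℝ) + 1) := by
    rw [show ((i : ℝ) + 1) = ((i + 1 : ℕ) : ℝ) by push_cast; ring, Real.rpow_natCast]
    exact_mod_cast hmq
  have hmle : (m : ℝ) ≤ (2 : ℝ) ^ ((i : ℝ) + 1) := by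
    refine le_trans ?_ hmq'
    have : (1 : ℝ) ≤ q := by exact_mod_cast hq0
    nlinarith
  have hθ : dd - d1 = 1 / 10 ^ 16 := by unfold dd d1; ring
  have hi' : (1 : ℝ) ≤ i := by exact_mod_cast hi
  rw [Nat.cast_div hq hq'.ne']
  unfold KEnv.TT ww
  have e1 : (2 : ℝ) ^ (-(1 / 2 + E.δ / 2) * (i : ℝ)) / (i : ℝ) ^ 40 * (m : ℝ) ^ (1 + dd - d1) * i /
      hh E.δ i * ((n : ℝ) / q)⁻¹ = (2 : ℝ) ^ (-(1 / 2 + E.δ / 2) * (i : ℝ)) * (i / (i : ℝ) ^ 40) *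
      ((m : ℝ) ^ (dd - d1) * (m * q)) * (hh E.δ i : ℝ)⁻¹ * (n : ℝ)⁻¹ := by
    rw [show (1 + dd - d1) = (dd - d1) + 1 by ring, Real.rpow_add (by linarith), Real.rpow_one]
    field_simp
  rw [e1]
  have h1 : (i : ℝ) / (i : ℝ) ^ 40 ≤ 1 := by
    rw [div_le_one (by positivity)]
    calc (i : ℝ) = (i : ℝ) ^ 1 := (pow_one _).symm
      _ ≤ (i : ℝ) ^ 40 := pow_le_pow_right₀ hi' (by norm_num)
  have h2 : (m : ℝ) ^ (dd - d1) * (m * q) ≤ (2 : ℝ) ^ ((dd - d1) * ((i : ℝ) + 1)) *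
      (2 : ℝ) ^ ((i : ℝ) + 1) := by
    apply mul_le_mul _ hmq' (by positivity) (by positivity)
    rw [mul_comm (dd - d1), Real.rpow_mul (by norm_num)]
    apply Real.rpow_le_rpow (by linarith) hmle
    rw [hθ]; positivity
  have h3 : (hh E.δ i : ℝ)⁻¹ ≤ (2 : ℝ) ^ (-((1 / 2 - E.δ) * i - 1)) := by
    rw [Real.rpow_neg (by norm_num)]
    exact inv_anti₀ (by positivity) hh_ge
  have h4 : (n : ℝ)⁻¹ ≤ (2 : ℝ) ^ (-(I : ℝ)) := by
    rw [Real.rpow_neg (by norm_num)]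
    exact inv_anti₀ (by positivity) hn'
  calc (2 : ℝ) ^ (-(1 / 2 + E.δ / 2) * (i : ℝ)) * (i / (i : ℝ) ^ 40) *
      ((m : ℝ) ^ (dd - d1) * (m * q)) * (hh E.δ i : ℝ)⁻¹ * (n : ℝ)⁻¹ ≤
      (2 : ℝ) ^ (-(1 / 2 + E.δ / 2) * (i : ℝ)) * 1 *
      ((2 : ℝ) ^ ((dd - d1) * ((i : ℝ) + 1)) * (2 : ℝ) ^ ((i : ℝ) + 1)) *
      (2 : ℝ) ^ (-((1 / 2 - E.δ) * i - 1)) * (2 : ℝ) ^ (-(I : ℝ)) := by gcongr
    _ = (2 : ℝ) ^ (-(1 / 2 + E.δ / 2) * (i : ℝ) + ((dd - d1) * ((i : ℝ) + 1) + ((i : ℝ) + 1)) +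
        (-((1 / 2 - E.δ) * i - 1)) + (-(I : ℝ))) := by
        rw [mul_one, ← Real.rpow_add (by norm_num), ← Real.rpow_add (by norm_num),
          ← Real.rpow_add (by norm_num), ← Real.rpow_add (by norm_num)]
    _ ≤ (2 : ℝ) ^ ((E.δ / 2 + (dd - d1)) * i + 3 - I) := by
        apply Real.rpow_le_rpow_of_exponent_le (by norm_num)
        rw [hθ]
        linarith

/-- the bound for `TT` with the exponent in terms of `I` only -/
theorem TT_le' (E : KEnv) {i I n q m : ℕ} (hi : 1 ≤ i) (hq : q ∣ n) (hq0 : 0 < q) (hm : 1 ≤ m)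
    (hmq : m * q ≤ 2 ^ (i + 1)) (hn : 2 ^ I < n) (hiI : (i : ℝ) ≤ 4 * I + 8) :
    E.TT i m * (((n / q : ℕ) : ℝ))⁻¹ ≤ (2 : ℝ) ^ (5 / 10 ^ 16 * (I : ℝ) + 4 - I) := by
  refine (TT_le E hi hq hq0 hm hmq hn).trans ?_
  apply Real.rpow_le_rpow_of_exponent_le (by norm_num)
  have hθ : dd - d1 = 1 / 10 ^ 16 := by unfold dd d1; ring
  have h1 := E.hδ'
  have h2 := E.hδ
  have h0 : (0 : ℝ) ≤ i := Nat.cast_nonneg i
  have hI0 : (0 : ℝ) ≤ I := Nat.cast_nonneg I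
  have h3 : (E.δ / 2 + (dd - d1)) * i ≤ (1 / 10 ^ 24 / 2 + 1 / 10 ^ 16) * (4 * I + 8) := by
    rw [hθ]
    apply mul_le_mul (by linarith) hiI h0 (by norm_num)
  have h4 : (1 / 10 ^ 24 / 2 + 1 / 10 ^ 16) * (4 * (I : ℝ) + 8) ≤ 5 / 10 ^ 16 * (I : ℝ) + 1 := by
    norm_num
    linarith
  linarith

end Q36.KZ
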