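import Pool.Agent.Q36.KZ.PartB

/-!
# Project KZ: the inner sums
-/

set_option autoImplicit false

namespace Q36.KZ

open Finset Filter Topology MeasureTheory
open scoped Classical
open Pool.Agent.W76.MO (hh nc cell lp Rough)
open Pool.Agent.Q18.KZ

theorem inner_le (hPW : S_PW) {E : KEnv} {j i I : ℕ} {F : Finset (ℕ × ℕ)} (hF : Fct E j i F)
    (hj : 20 ≤ j) (hi : 1 ≤ i) {n : ℕ} (hn : Rg j n) (hIn : 2 ^ I < n) (hnI : n ≤ 2 ^ (I + 1))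
    {u : ℕ × ℕ} (hu : u ∈ F) (hun : u.2 ∣ n) (L : Finset ℕ) :
    ∑ l ∈ (n / u.2).divisors, E.TT i u.1 * ((l : ℝ) ^ (-(1 / 2 : ℝ) - dd) *
        (((n / u.2 / l : ℕ) : ℝ))⁻¹) * ∏ p ∈ (u.1.primeFactors ∪ l.primeFactors) \ L, rho j p ≤
      (2 : ℝ) ^ (5 / 10 ^ 16 * (I : ℝ) + 4 - I) * (2 : ℝ) ^ (20 * ((I : ℝ) + 1) / j) *
        (QL L n ^ (1 / 2 - d1) *
          ∏ p ∈ u.1.primeFactors \ (L ∪ (n / u.2).primeFactors), rho j p) := by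
  have h1 := core_sum hPW (m := u.1) (L := L) hn hun (TT_nonneg E i u.1)
  refine h1.trans ?_
  have hq := hF.prime u hu
  have h2 : (i : ℝ) ≤ 4 * I + 8 := by
    have h3 := hF.quart u hu
    have h4 : (u.2 : ℝ) ≤ (2 : ℝ) ^ ((I : ℝ) + 1) := by
      rw [show ((I : ℝ) + 1) = ((I + 1 : ℕ) : ℝ) by push_cast; ring, Real.rpow_natCast]
      exact_mod_cast (Nat.le_of_dvd (Nat.pos_of_ne_zero hn.1) hun).trans hnI
    have h5 := h3.trans h4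
    rw [Real.rpow_le_rpow_left_iff (by norm_num)] at h5
    linarith
  have h6 := TT_le' E hi hun hq.pos (hF.one u hu).le (hF.up u hu) hIn h2
  have h7 := tau_dvd_le hj hn hnI (Nat.div_dvd_of_dvd hun)
  have h8 : 0 ≤ QL L n ^ (1 / 2 - d1) := by linarith [QL_rpow_one_le L hn.1]
  have h9 := prod_rho_nonneg j (u.1.primeFactors \ (L ∪ (n / u.2).primeFactors))
  calc E.TT i u.1 * (((n / u.2 : ℕ) : ℝ))⁻¹ * ((n / u.2).divisors.card : ℝ) * QL L n ^ (1 / 2 - d1) *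
      ∏ p ∈ u.1.primeFactors \ (L ∪ (n / u.2).primeFactors), rho j p ≤
      (2 : ℝ) ^ (5 / 10 ^ 16 * (I : ℝ) + 4 - I) * (2 : ℝ) ^ (20 * ((I : ℝ) + 1) / j) *
        QL L n ^ (1 / 2 - d1) *
      ∏ p ∈ u.1.primeFactors \ (L ∪ (n / u.2).primeFactors), rho j p := by gcongr
    _ = _ := by ring

/-- polynomials are small -/
theorem poly_le (k : ℕ) {c : ℝ} (hc : 0 < c) : ∃ J : ℕ, ∀ I : ℕ, J ≤ I →
    ((I : ℝ) + 1) * (((k : ℝ) + 1) * ((I : ℝ) + 1) + 1) ^ 3 ≤ (2 : ℝ) ^ (c * I) := by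
  have hr : (1 : ℝ) < (2 : ℝ) ^ c := Real.one_lt_rpow (by norm_num) hc
  have h1 := tendsto_pow_const_div_const_pow_of_one_lt 4 hr
  have h2 : (0 : ℝ) < 1 / ((2 : ℝ) ^ c * ((k : ℝ) + 2) ^ 3) := by positivity
  have h3 := (h1.eventually (gt_mem_nhds h2))
  obtain ⟨N, hN⟩ := Filter.eventually_atTop.1 h3
  refine ⟨N, fun I hI => ?_⟩
  have h4 := hN (I + 1) (by omega)
  have h5 : (0 : ℝ) < ((2 : ℝ) ^ c) ^ (I + 1) := by positivity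
  rw [div_lt_div_iff₀ h5 (by positivity)] at h4
  have h6 : ((2 : ℝ) ^ c) ^ (I + 1) = (2 : ℝ) ^ c * (2 : ℝ) ^ (c * I) := by
    rw [pow_succ, mul_comm]
    congr 1
    rw [Real.rpow_mul (by norm_num), Real.rpow_natCast]
  rw [h6] at h4
  have h7 : (0 : ℝ) < (2 : ℝ) ^ c := by positivity
  have h8 : (((I + 1 : ℕ) : ℝ)) ^ 4 * ((k : ℝ) + 2) ^ 3 < (2 : ℝ) ^ (c * I) := by
    have h9 : (2 : ℝ) ^ c * ((((I + 1 : ℕ) : ℝ)) ^ 4 * ((k : ℝ) + 2) ^ 3) <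
        (2 : ℝ) ^ c * (2 : ℝ) ^ (c * I) := by nlinarith
    exact lt_of_mul_lt_mul_left h9 h7.le
  refine le_trans ?_ h8.le
  push_cast
  have h10 : (0 : ℝ) ≤ I := Nat.cast_nonneg I
  have h11 : (0 : ℝ) ≤ k := Nat.cast_nonneg k
  have h12 : (((k : ℝ) + 1) * ((I : ℝ) + 1) + 1) ^ 3 ≤ (((k : ℝ) + 2) * ((I : ℝ) + 1)) ^ 3 := by
    apply pow_le_pow_left₀ (by positivity)
    nlinarith
  calc ((I : ℝ) + 1) * (((k : ℝ) + 1) * ((I : ℝ) + 1) + 1) ^ 3 ≤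
        ((I : ℝ) + 1) * (((k : ℝ) + 2) * ((I : ℝ) + 1)) ^ 3 := by gcongr
    _ = ((I : ℝ) + 1) ^ 4 * ((k : ℝ) + 2) ^ 3 := by ring

end Q36.KZ
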