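import Pool.Agent.Q36.KZ.Core

/-!
# Project KZ: counting lemmas for HNP and HDP
-/

set_option autoImplicit false

namespace Q36.KZ

open Finset Filter Topology MeasureTheory
open scoped Classical
open Pool.Agent.W76.MO (hh nc cell lp Rough)
open Pool.Agent.Q18.KZ

theorem card_small_subsets (P : Finset ℕ) :
    (P.powerset.filter (fun T => T.card ≤ 3)).card ≤ (P.card + 1) ^ 3 := by
  have h1 : P.powerset.filter (fun T => T.card ≤ 3) ⊆
      (Finset.range 4).biUnion (fun c => P.powersetCard c) := by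
    intro T hT
    simp only [Finset.mem_filter, Finset.mem_powerset] at hT
    simp only [Finset.mem_biUnion, Finset.mem_range, Finset.mem_powersetCard]
    exact ⟨T.card, by omega, hT.1, rfl⟩
  refine (Finset.card_le_card h1).trans (Finset.card_biUnion_le.trans ?_)
  simp only [Finset.card_powersetCard, Finset.sum_range_succ, Finset.sum_range_zero]
  have h2 := Nat.choose_le_pow P.card 0
  have h3 := Nat.choose_le_pow P.card 1
  have h4 := Nat.choose_le_pow P.card 2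
  have h5 := Nat.choose_le_pow P.card 3
  nlinarith

theorem pairs_bound (X : Finset (ℕ × (ℕ × ℕ))) (D : Finset (ℕ × ℕ)) (s : ℕ × ℕ → ℕ) (W : ℕ → ℝ)
    (M : ℝ) (hW : ∀ y ∈ D, 0 ≤ W y.1)
    (hmap : ∀ x ∈ X, (x.1, s x.2) ∈ D ∧ x.2.2 ∣ s x.2 ∧ s x.2 ≠ 0)
    (hinj : ∀ x ∈ X, ∀ y ∈ X, s x.2 = s y.2 → x.2.2 = y.2.2 → x.2 = y.2)
    (hM : ∀ y ∈ D, (y.2.divisors.card : ℝ) ≤ M) :
    ∑ x ∈ X, W x.1 ≤ M * ∑ y ∈ D, W y.1 := by
  rw [← Finset.sum_fiberwise_of_maps_to (s := X) (t := D) (g := fun x => (x.1, s x.2))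
    (fun x hx => (hmap x hx).1), Finset.mul_sum]
  apply Finset.sum_le_sum
  intro y hy
  have h1 : ∑ x ∈ X.filter (fun x => (x.1, s x.2) = y), W x.1 =
      ∑ x ∈ X.filter (fun x => (x.1, s x.2) = y), W y.1 := by
    apply Finset.sum_congr rfl
    intro x hx
    rw [← (Finset.mem_filter.1 hx).2]
  rw [h1, Finset.sum_const, nsmul_eq_mul]
  apply mul_le_mul_of_nonneg_right _ (hW y hy)
  refine le_trans ?_ (hM y hy)
  have h2 : (X.filter (fun x => (x.1, s x.2) = y)).card ≤ y.2.divisors.card := by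
    apply Finset.card_le_card_of_injOn (fun x => x.2.2)
    · intro x hx
      have hx' := Finset.mem_filter.1 (Finset.mem_coe.1 hx)
      have h3 := hmap x hx'.1
      have h4 : s x.2 = y.2 := by rw [← hx'.2]
      rw [h4] at h3
      exact Finset.mem_coe.2 (Nat.mem_divisors.2 ⟨h3.2.1, h3.2.2⟩)
    · intro x hx x' hx' h
      have hx1 := Finset.mem_filter.1 (Finset.mem_coe.1 hx)
      have hx2 := Finset.mem_filter.1 (Finset.mem_coe.1 hx')
      have h5 := hx1.2.trans hx2.2.symm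
      have h6 : x.1 = x'.1 := (Prod.mk.inj h5).1
      have h7 : s x.2 = s x'.2 := (Prod.mk.inj h5).2
      exact Prod.ext h6 (hinj x hx1.1 x' hx2.1 h7 h)
  exact_mod_cast h2

/-- the facts on the families which are used -/
structure Fct (E : KEnv) (j i : ℕ) (F : Finset (ℕ × ℕ)) : Prop where
  sub : F ⊆ E.Fam i
  sqf : ∀ u ∈ F, Squarefree u.1
  one : ∀ u ∈ F, 1 < u.1
  prime : ∀ u ∈ F, u.2.Prime
  up : ∀ u ∈ F, u.1 * u.2 ≤ 2 ^ (i + 1)
  lo : ∀ u ∈ F, 2 ^ i < u.1 * u.2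
  card : ∀ u ∈ F, u.1.primeFactors.card ≤ 3
  big : ∀ u ∈ F, ∀ p : ℕ, p.Prime → p ∣ u.1 → 2 ^ (j / 10) ≤ p
  quart : ∀ u ∈ F, (2 : ℝ) ^ (0.25 * (i : ℝ)) ≤ u.2

theorem pow_floor_le {j i p : ℕ} {c : ℝ} (hji : j ≤ i) (hc : 1 / 10 ≤ c)
    (h : (2 : ℝ) ^ (c * (i : ℝ)) ≤ p) : 2 ^ (j / 10) ≤ p := by
  have h1 : ((2 ^ (j / 10) : ℕ) : ℝ) ≤ (p : ℝ) := by
    refine le_trans ?_ h
    push_cast
    rw [← Real.rpow_natCast]
    apply Real.rpow_le_rpow_of_exponent_le (by norm_num)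
    have h2 : ((j / 10 : ℕ) : ℝ) ≤ (j : ℝ) / 10 := Nat.cast_div_le
    have h3 : (j : ℝ) ≤ i := by exact_mod_cast hji
    have h4 : (0 : ℝ) ≤ i := Nat.cast_nonneg i
    nlinarith
  exact_mod_cast h1

theorem fct1 (hFF : S_FF) (E : KEnv) {j i : ℕ} (hji : j ≤ i) (hi : E.i₁ ≤ i) :
    Fct E j i (E.Fam1 i) := by
  have h := (hFF E i hi).1
  refine ⟨Finset.subset_union_left, ?_, ?_, ?_, ?_, ?_, ?_, ?_, ?_⟩
  · intro u hu; exact (h u hu).1.prime.squarefree
  · intro u hu; exact (h u hu).1.one_lt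
  · intro u hu; exact (h u hu).2.1
  · intro u hu; exact (h u hu).2.2.2.2.2.2.1
  · intro u hu; exact (h u hu).2.2.2.2.2.1
  · intro u hu
    rw [(h u hu).1.primeFactors]; simp
  · intro u hu p hp hpu
    have h1 : p = u.1 := (Nat.prime_dvd_prime_iff_eq hp (h u hu).1).1 hpu
    rw [h1]
    have h2 := (h u hu).2.2.1
    unfold VR at h2
    have h3 := (Finset.mem_filter.1 h2).2.2.1
    exact pow_floor_le hji (by norm_num) h3.le
  · intro u hu
    refine le_trans ?_ (h u hu).2.2.2.2.1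
    apply Real.rpow_le_rpow_of_exponent_le (by norm_num)
    have : (0 : ℝ) ≤ i := Nat.cast_nonneg i
    nlinarith

theorem fct2 (hFF : S_FF) (E : KEnv) {j i : ℕ} (hji : j ≤ i) (hi : E.i₁ ≤ i) :
    Fct E j i (E.Fam2 i) := by
  have h := (hFF E i hi).2
  refine ⟨Finset.subset_union_right, ?_, ?_, ?_, ?_, ?_, ?_, ?_, ?_⟩
  · intro u hu; exact (h u hu).1
  · intro u hu; exact (h u hu).2.1
  · intro u hu; exact (h u hu).2.2.1
  · intro u hu; exact (h u hu).2.2.2.2.2.2.2.2.2.1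
  · intro u hu; exact (h u hu).2.2.2.2.2.2.2.2.1
  · intro u hu; exact (h u hu).2.2.2.2.2.1
  · intro u hu p hp hpu
    exact pow_floor_le hji (by norm_num) ((h u hu).2.2.2.2.1 p hp hpu)
  · intro u hu
    exact (h u hu).2.2.2.2.2.2.2.1

/-- the product of `rho` over the primes of `m` outside `P` -/
theorem prod_rho_eq {j m : ℕ} (hm : Squarefree m) (hbig : ∀ p : ℕ, p.Prime → p ∣ m → 2 ^ (j / 10) ≤ p)
    (P : Finset ℕ) : ∏ p ∈ m.primeFactors \ P, rho j p =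
      (((m / (∏ p ∈ m.primeFactors ∩ P, p) : ℕ) : ℝ)) ^ (-(1 / 2 : ℝ) + d1) := by
  have h1 : m = (∏ p ∈ m.primeFactors \ P, p) * ∏ p ∈ m.primeFactors ∩ P, p := by
    conv_lhs => rw [← Nat.prod_primeFactors_of_squarefree hm]
    rw [← Finset.prod_sdiff (Finset.inter_subset_left : m.primeFactors ∩ P ⊆ m.primeFactors)]
    congr 1
    apply Finset.prod_congr _ fun _ _ => rfl
    ext p
    simp only [Finset.mem_sdiff, Finset.mem_inter]
    tauto
  have h2 : 0 < ∏ p ∈ m.primeFactors ∩ P, p :=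
    Finset.prod_pos fun p hp => (Nat.prime_of_mem_primeFactors (Finset.mem_inter.1 hp).1).pos
  have h3 : m / (∏ p ∈ m.primeFactors ∩ P, p) = ∏ p ∈ m.primeFactors \ P, p :=
    Nat.div_eq_of_eq_mul_left h2 h1
  rw [h3]
  push_cast
  rw [← Real.finsetProd_rpow _ _ (fun p _ => Nat.cast_nonneg p)]
  apply Finset.prod_congr rfl
  intro p hp
  have hp' := Finset.mem_sdiff.1 hp
  have hpp := Nat.prime_of_mem_primeFactors hp'.1
  unfold rho
  rw [if_pos ⟨hpp, hbig p hpp (Nat.dvd_of_mem_primeFactors hp'.1)⟩]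

theorem prod_inter_dvd {m : ℕ} (hm : Squarefree m) (P : Finset ℕ) :
    ∏ p ∈ m.primeFactors ∩ P, p ∣ m := by
  conv_rhs => rw [← Nat.prod_primeFactors_of_squarefree hm]
  exact Finset.prod_dvd_prod_of_subset _ _ _ Finset.inter_subset_left

theorem prod_inter_ne {m : ℕ} (P : Finset ℕ) (h : ¬ m.primeFactors ⊆ P) :
    ∏ p ∈ m.primeFactors ∩ P, p ≠ m := by
  intro h1
  apply h
  intro q hq
  have hqp := Nat.prime_of_mem_primeFactors hq
  have h2 : q ∣ ∏ p ∈ m.primeFactors ∩ P, p := by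
    rw [h1]; exact Nat.dvd_of_mem_primeFactors hq
  obtain ⟨p, hp, hqp'⟩ := (hqp.prime.dvd_finsetProd_iff _).1 h2
  have h3 := Finset.mem_inter.1 hp
  have h4 : q = p := (Nat.prime_dvd_prime_iff_eq hqp (Nat.prime_of_mem_primeFactors h3.1)).1 hqp'
  rw [h4]; exact h3.2

end Q36.KZ
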