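import Pool.Agent.Q36.KZ.Pairs

/-!
# Project KZ: part A of HNP (pairs with a free part)
-/

set_option autoImplicit false

namespace Q36.KZ

open Finset Filter Topology MeasureTheory
open scoped Classical
open Pool.Agent.W76.MO (hh nc cell lp Rough)
open Pool.Agent.Q18.KZ

theorem partA {E : KEnv} {j i : ℕ} {F : Finset (ℕ × ℕ)} (hF : Fct E j i F) {L : Finset ℕ} {n : ℕ}
    (hn : Rg j n) {B : ℝ} (hB : 0 ≤ B)
    (hF1 : ∀ q l : ℕ, ∑ u ∈ (E.Fam i).filter (fun u => u.2 = q ∧ l ∣ u.1 ∧ l ≠ u.1),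
      (((u.1 / l : ℕ) : ℝ)) ^ (-(1 / 2 : ℝ) + d1) ≤ B) (c : ℕ × ℕ → Prop) :
    ∑ u ∈ F.filter (fun u => u.2 ∣ n ∧ c u ∧ ¬ u.1.primeFactors ⊆ L ∪ (n / u.2).primeFactors),
      ∏ p ∈ u.1.primeFactors \ (L ∪ (n / u.2).primeFactors), rho j p ≤
    (n.primeFactors.card : ℝ) * (((L.card : ℝ) + n.primeFactors.card + 1) ^ 3 * B) := by
  set S := F.filter (fun u => u.2 ∣ n ∧ c u ∧ ¬ u.1.primeFactors ⊆ L ∪ (n / u.2).primeFactors)
    with hS
  have hmem : ∀ u ∈ S, u ∈ F ∧ u.2 ∣ n ∧ ¬ u.1.primeFactors ⊆ L ∪ (n / u.2).primeFactors := by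
    intro u hu
    have := Finset.mem_filter.1 hu
    exact ⟨this.1, this.2.1, this.2.2.2⟩
  have hmap : ∀ u ∈ S, u.2 ∈ n.primeFactors := by
    intro u hu
    have h := hmem u hu
    exact Nat.mem_primeFactors.2 ⟨hF.prime u h.1, h.2.1, hn.1⟩
  rw [← Finset.sum_fiberwise_of_maps_to (s := S) (t := n.primeFactors) (g := fun u => u.2) hmap]
  have hq : ∀ q ∈ n.primeFactors, ∑ u ∈ S.filter (fun u => u.2 = q),
      ∏ p ∈ u.1.primeFactors \ (L ∪ (n / u.2).primeFactors), rho j p ≤
      ((L.card : ℝ) + n.primeFactors.card + 1) ^ 3 * B := by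
    intro q hq
    have hqn := Nat.dvd_of_mem_primeFactors hq
    set P := L ∪ (n / q).primeFactors with hP
    have hPc : (P.card : ℝ) ≤ (L.card : ℝ) + n.primeFactors.card := by
      have h1 : P.card ≤ L.card + (n / q).primeFactors.card := Finset.card_union_le _ _
      have h2 : (n / q).primeFactors.card ≤ n.primeFactors.card :=
        Finset.card_le_card (Nat.primeFactors_mono (Nat.div_dvd_of_dvd hqn) hn.1)
      exact_mod_cast h1.trans (by omega)
    have hmap2 : ∀ u ∈ S.filter (fun u => u.2 = q), u.1.primeFactors ∩ P ∈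
        P.powerset.filter (fun T => T.card ≤ 3) := by
      intro u hu
      have h := Finset.mem_filter.1 hu
      rw [Finset.mem_filter, Finset.mem_powerset]
      refine ⟨Finset.inter_subset_right, ?_⟩
      exact (Finset.card_le_card Finset.inter_subset_left).trans (hF.card u (hmem u h.1).1)
    rw [← Finset.sum_fiberwise_of_maps_to (s := S.filter (fun u => u.2 = q))
      (t := P.powerset.filter (fun T => T.card ≤ 3)) (g := fun u => u.1.primeFactors ∩ P) hmap2]
    have hT : ∀ T ∈ P.powerset.filter (fun T => T.card ≤ 3),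
        ∑ u ∈ (S.filter (fun u => u.2 = q)).filter (fun u => u.1.primeFactors ∩ P = T),
          ∏ p ∈ u.1.primeFactors \ (L ∪ (n / u.2).primeFactors), rho j p ≤ B := by
      intro T _
      refine le_trans ?_ (hF1 q (∏ p ∈ T, p))
      have h1 : ∑ u ∈ (S.filter (fun u => u.2 = q)).filter (fun u => u.1.primeFactors ∩ P = T),
          ∏ p ∈ u.1.primeFactors \ (L ∪ (n / u.2).primeFactors), rho j p =
          ∑ u ∈ (S.filter (fun u => u.2 = q)).filter (fun u => u.1.primeFactors ∩ P = T),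
            (((u.1 / (∏ p ∈ T, p) : ℕ) : ℝ)) ^ (-(1 / 2 : ℝ) + d1) := by
        apply Finset.sum_congr rfl
        intro u hu
        have h2 := Finset.mem_filter.1 hu
        have h3 := Finset.mem_filter.1 h2.1
        have h4 := hmem u h3.1
        rw [h3.2, ← hP, prod_rho_eq (hF.sqf u h4.1) (hF.big u h4.1) P, h2.2]
      rw [h1]
      apply Finset.sum_le_sum_of_subset_of_nonneg
      · intro u hu
        have h2 := Finset.mem_filter.1 hu
        have h3 := Finset.mem_filter.1 h2.1
        have h4 := hmem u h3.1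
        rw [Finset.mem_filter]
        refine ⟨hF.sub h4.1, h3.2, ?_, ?_⟩
        · rw [← h2.2]; exact prod_inter_dvd (hF.sqf u h4.1) P
        · rw [← h2.2]
          apply prod_inter_ne P
          have h5 := h4.2.2
          rwa [h3.2] at h5
      · intro u _ _
        positivity
    refine (Finset.sum_le_sum hT).trans ?_
    rw [Finset.sum_const, nsmul_eq_mul]
    apply mul_le_mul_of_nonneg_right _ hB
    have h6 : ((P.powerset.filter (fun T => T.card ≤ 3)).card : ℝ) ≤ ((P.card : ℝ) + 1) ^ 3 := by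
      exact_mod_cast card_small_subsets P
    refine h6.trans ?_
    have h7 : (0 : ℝ) ≤ P.card := Nat.cast_nonneg _
    exact pow_le_pow_left₀ (by linarith) (by linarith) 3
  refine (Finset.sum_le_sum hq).trans ?_
  rw [Finset.sum_const, nsmul_eq_mul]

end Q36.KZ
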