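import Pool.Agent.Q36.KZ.PartA

/-!
# Project KZ: part B of HNP (pairs without a free part)
-/

set_option autoImplicit false

namespace Q36.KZ

open Finset Filter Topology MeasureTheory
open scoped Classical
open Pool.Agent.W76.MO (hh nc cell lp Rough)
open Pool.Agent.Q18.KZ

theorem split_prod {m : ℕ} (hm : Squarefree m) (P : Finset ℕ) :
    (∏ p ∈ m.primeFactors ∩ P, p) * ∏ p ∈ m.primeFactors \ P, p = m := by
  conv_rhs => rw [← Nat.prod_primeFactors_of_squarefree hm]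
  rw [← Finset.prod_sdiff (Finset.inter_subset_left : m.primeFactors ∩ P ⊆ m.primeFactors), mul_comm]
  congr 1
  apply Finset.prod_congr _ fun _ _ => rfl
  ext p
  simp only [Finset.mem_sdiff, Finset.mem_inter]
  tauto

/-- the pairs `(n, s)` -/
noncomputable def DD (j I a b g : ℕ) (cc : ℕ → ℕ → Prop) : Finset (ℕ × ℕ) :=
  (((Ioc a b) ×ˢ (range (2 ^ (I + 1) + 1))).filter (fun y => y.2 ∣ y.1 ∧ cc y.1 (g * y.2))).filter
    (fun y => Rg j y.1)

theorem mem_DD {j I a b g : ℕ} {cc : ℕ → ℕ → Prop} {y : ℕ × ℕ} : y ∈ DD j I a b g cc ↔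
    ((y.1 ∈ Ioc a b ∧ y.2 < 2 ^ (I + 1) + 1) ∧ y.2 ∣ y.1 ∧ cc y.1 (g * y.2)) ∧ Rg j y.1 := by
  unfold DD
  simp only [Finset.mem_filter, Finset.mem_product, Finset.mem_range]

theorem partB {E : KEnv} {j i : ℕ} {F : Finset (ℕ × ℕ)} (hF : Fct E j i F) {L : Finset ℕ}
    {a b I : ℕ} (hj : 20 ≤ j) (hb : b ≤ 2 ^ (I + 1)) (W : ℕ → ℝ) (hW : ∀ n, Rg j n → 0 ≤ W n)
    (c : ℕ → ℕ × ℕ → Prop) (cc : ℕ → ℕ → Prop) (hcc : ∀ n, ∀ u ∈ F, c n u → cc n (u.1 * u.2))
    {R : ℝ} (hR0 : 0 ≤ R) (hR : ∀ n ∈ Ioc a b, ∀ u ∈ F, u.2 ∣ n → c n u → Rg j n →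
      u.1.primeFactors ⊆ L ∪ (n / u.2).primeFactors →
      ∑ y ∈ DD j I a b (∏ p ∈ u.1.primeFactors ∩ L, p) cc, W y.1 ≤ R) :
    ∑ n ∈ (Ioc a b).filter (Rg j), ∑ u ∈ F.filter (fun u => u.2 ∣ n ∧ c n u ∧
      u.1.primeFactors ⊆ L ∪ (n / u.2).primeFactors), W n ≤
    ((L.card : ℝ) + 1) ^ 3 * ((2 : ℝ) ^ (20 * ((I : ℝ) + 1) / j) * R) := by
  set X : Finset (ℕ × (ℕ × ℕ)) := (((Ioc a b).filter (Rg j)) ×ˢ F).filter (fun x =>
    x.2.2 ∣ x.1 ∧ c x.1 x.2 ∧ x.2.1.primeFactors ⊆ L ∪ (x.1 / x.2.2).primeFactors) with hX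
  have hmem : ∀ x ∈ X, (x.1 ∈ Ioc a b ∧ Rg j x.1) ∧ x.2 ∈ F ∧ x.2.2 ∣ x.1 ∧ c x.1 x.2 ∧
      x.2.1.primeFactors ⊆ L ∪ (x.1 / x.2.2).primeFactors := by
    intro x hx
    have h1 := Finset.mem_filter.1 hx
    have h2 := Finset.mem_product.1 h1.1
    exact ⟨Finset.mem_filter.1 h2.1, h2.2, h1.2⟩
  have e1 : ∑ n ∈ (Ioc a b).filter (Rg j), ∑ u ∈ F.filter (fun u => u.2 ∣ n ∧ c n u ∧
      u.1.primeFactors ⊆ L ∪ (n / u.2).primeFactors), W n = ∑ x ∈ X, W x.1 := by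
    rw [hX]
    conv_rhs => rw [Finset.sum_filter, Finset.sum_product]
    apply Finset.sum_congr rfl
    intro n _
    rw [Finset.sum_filter]
  rw [e1]
  have hmap : ∀ x ∈ X, x.2.1.primeFactors ∩ L ∈ L.powerset.filter (fun T => T.card ≤ 3) := by
    intro x hx
    rw [Finset.mem_filter, Finset.mem_powerset]
    refine ⟨Finset.inter_subset_right, ?_⟩
    exact (Finset.card_le_card Finset.inter_subset_left).trans (hF.card x.2 (hmem x hx).2.1)
  rw [← Finset.sum_fiberwise_of_maps_to (s := X) (t := L.powerset.filter (fun T => T.card ≤ 3))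
    (g := fun x => x.2.1.primeFactors ∩ L) hmap]
  have hM0 : (0 : ℝ) ≤ (2 : ℝ) ^ (20 * ((I : ℝ) + 1) / j) := by positivity
  have hT : ∀ T ∈ L.powerset.filter (fun T => T.card ≤ 3),
      ∑ x ∈ X.filter (fun x => x.2.1.primeFactors ∩ L = T), W x.1 ≤
        (2 : ℝ) ^ (20 * ((I : ℝ) + 1) / j) * R := by
    intro T _
    rcases (X.filter (fun x => x.2.1.primeFactors ∩ L = T)).eq_empty_or_nonempty with h0 | ⟨x0, hx0⟩
    · rw [h0, Finset.sum_empty]
      exact mul_nonneg hM0 hR0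
    · have hx0' := Finset.mem_filter.1 hx0
      have hm0 := hmem x0 hx0'.1
      have hRT := hR x0.1 hm0.1.1 x0.2 hm0.2.1 hm0.2.2.1 hm0.2.2.2.1 hm0.1.2 hm0.2.2.2.2
      rw [hx0'.2] at hRT
      refine le_trans ?_ (mul_le_mul_of_nonneg_left hRT hM0)
      apply pairs_bound _ (DD j I a b (∏ p ∈ T, p) cc)
        (fun u => (∏ p ∈ u.1.primeFactors \ L, p) * u.2) W
      · intro y hy
        exact hW y.1 (mem_DD.1 hy).2
      · intro x hx
        have hx' := Finset.mem_filter.1 hx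
        have hm := hmem x hx'.1
        have hup : 0 < ∏ p ∈ x.2.1.primeFactors \ L, p := Finset.prod_pos fun p hp =>
          (Nat.prime_of_mem_primeFactors (Finset.mem_sdiff.1 hp).1).pos
        have hq0 := (hF.prime x.2 hm.2.1).pos
        have hsd : ∏ p ∈ x.2.1.primeFactors \ L, p ∣ x.1 / x.2.2 := by
          refine (Finset.prod_dvd_prod_of_subset _ _ _ ?_).trans
            (Nat.prod_primeFactors_dvd (x.1 / x.2.2))
          intro p hp
          have hp' := Finset.mem_sdiff.1 hp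
          rcases Finset.mem_union.1 (hm.2.2.2.2 hp'.1) with h | h
          · exact absurd h hp'.2
          · exact h
        have hsn : (∏ p ∈ x.2.1.primeFactors \ L, p) * x.2.2 ∣ x.1 := by
          obtain ⟨w, hw⟩ := hsd
          refine ⟨w, ?_⟩
          have h1 := Nat.div_mul_cancel hm.2.2.1
          rw [← h1, hw]; ring
        have hx1pos : 0 < x.1 := Nat.pos_of_ne_zero hm.1.2.1
        refine ⟨?_, dvd_mul_left _ _, (Nat.mul_pos hup hq0).ne'⟩
        rw [mem_DD]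
        refine ⟨⟨⟨hm.1.1, ?_⟩, hsn, ?_⟩, hm.1.2⟩
        · have h2 := Nat.le_of_dvd hx1pos hsn
          have h3 := (Finset.mem_Ioc.1 hm.1.1).2
          show (∏ p ∈ x.2.1.primeFactors \ L, p) * x.2.2 < 2 ^ (I + 1) + 1
          omega
        · show cc x.1 ((∏ p ∈ T, p) * ((∏ p ∈ x.2.1.primeFactors \ L, p) * x.2.2))
          rw [← mul_assoc, ← hx'.2, split_prod (hF.sqf x.2 hm.2.1) L]
          exact hcc x.1 x.2 hm.2.1 hm.2.2.2.1
      · intro x hx y hy h h2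
        have hx' := Finset.mem_filter.1 hx
        have hy' := Finset.mem_filter.1 hy
        have hm := hmem x hx'.1
        have hn := hmem y hy'.1
        have hq0 := (hF.prime x.2 hm.2.1).pos
        have h3 : ∏ p ∈ x.2.1.primeFactors \ L, p = ∏ p ∈ y.2.1.primeFactors \ L, p := by
          have h4 : (∏ p ∈ x.2.1.primeFactors \ L, p) * x.2.2 =
            (∏ p ∈ y.2.1.primeFactors \ L, p) * y.2.2 := h
          rw [← h2] at h4
          exact Nat.eq_of_mul_eq_mul_right hq0 h4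
        have h5 : x.2.1 = y.2.1 := by
          rw [← split_prod (hF.sqf x.2 hm.2.1) L, ← split_prod (hF.sqf y.2 hn.2.1) L, h3, hx'.2, hy'.2]
        exact Prod.ext h5 h2
      · intro y hy
        have h1 := mem_DD.1 hy
        have h2 := (Finset.mem_Ioc.1 h1.1.1.1).2
        exact tau_dvd_le hj h1.2 (h2.trans hb) h1.1.2.1
  refine (Finset.sum_le_sum hT).trans ?_
  rw [Finset.sum_const, nsmul_eq_mul]
  apply mul_le_mul_of_nonneg_right _ (mul_nonneg hM0 hR0)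
  exact_mod_cast card_small_subsets L

end Q36.KZ
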