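import Pool.Agent.Q36.KZ.Inner

/-!
# Project KZ: splitting the sum
-/

set_option autoImplicit false

namespace Q36.KZ

open Finset Filter Topology MeasureTheory
open scoped Classical
open Pool.Agent.W76.MO (hh nc cell lp Rough)
open Pool.Agent.Q18.KZ

theorem split_sum (F : Finset (ℕ × ℕ)) (D c sub : ℕ × ℕ → Prop) [DecidablePred fun u => D u ∧ c u]
    [DecidablePred fun u => D u ∧ c u ∧ sub u] [DecidablePred fun u => D u ∧ c u ∧ ¬ sub u]
    (g : ℕ × ℕ → ℝ) :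
    ∑ u ∈ F.filter (fun u => D u ∧ c u), g u = ∑ u ∈ F.filter (fun u => D u ∧ c u ∧ sub u), g u +
      ∑ u ∈ F.filter (fun u => D u ∧ c u ∧ ¬ sub u), g u := by
  have h := Finset.sum_filter_add_sum_filter_not (F.filter (fun u => D u ∧ c u)) sub g
  rw [← h]
  congr 1
  · apply Finset.sum_congr _ (fun _ _ => rfl)
    ext u
    simp only [Finset.mem_filter]
    tauto
  · apply Finset.sum_congr _ (fun _ _ => rfl)
    ext u
    simp only [Finset.mem_filter]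
    tauto

/-- the sum in terms of the weights -/
theorem main_split (hPW : S_PW) {E : KEnv} {j i I a b k : ℕ} {F : Finset (ℕ × ℕ)}
    (hF : Fct E j i F) (hj : 20 ≤ j) (hi : 1 ≤ i) (ha : 2 ^ I ≤ a) (hb : b ≤ 2 ^ (I + 1))
    {L : Finset ℕ} (hLc : (L.card : ℝ) * j ≤ k * (I + 1)) {B : ℝ} (hB : 0 ≤ B)
    (hF1 : ∀ q l : ℕ, ∑ u ∈ (E.Fam i).filter (fun u => u.2 = q ∧ l ∣ u.1 ∧ l ≠ u.1),
      (((u.1 / l : ℕ) : ℝ)) ^ (-(1 / 2 : ℝ) + d1) ≤ B) (c : ℕ → ℕ × ℕ → Prop)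
    {Q : ℝ} (hQ : ∑ n ∈ (Ioc a b).filter (Rg j), Real.sqrt (QL L n) ≤ Q) :
    ∑ n ∈ (Ioc a b).filter (Rg j), ∑ u ∈ F.filter (fun u => u.2 ∣ n ∧ c n u),
      ∑ l ∈ (n / u.2).divisors, E.TT i u.1 * ((l : ℝ) ^ (-(1 / 2 : ℝ) - dd) *
        (((n / u.2 / l : ℕ) : ℝ))⁻¹) * ∏ p ∈ (u.1.primeFactors ∪ l.primeFactors) \ L, rho j p ≤
      (2 : ℝ) ^ (5 / 10 ^ 16 * (I : ℝ) + 4 - I) * (2 : ℝ) ^ (20 * ((I : ℝ) + 1) / j) *
        (((I : ℝ) + 1) * (((k : ℝ) + 1) * ((I : ℝ) + 1) + 1) ^ 3 * B * Q +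
        ∑ n ∈ (Ioc a b).filter (Rg j), ∑ u ∈ F.filter (fun u => u.2 ∣ n ∧ c n u ∧
          u.1.primeFactors ⊆ L ∪ (n / u.2).primeFactors), QL L n ^ (1 / 2 - d1)) := by
  set K : ℝ := (2 : ℝ) ^ (5 / 10 ^ 16 * (I : ℝ) + 4 - I) * (2 : ℝ) ^ (20 * ((I : ℝ) + 1) / j) with hK
  have hK0 : 0 ≤ K := by rw [hK]; positivity
  have hI0 : (0 : ℝ) ≤ I := Nat.cast_nonneg I
  have hk0 : (0 : ℝ) ≤ k := Nat.cast_nonneg k
  have hj1 : (1 : ℝ) ≤ j := by
    have : (20 : ℝ) ≤ j := by exact_mod_cast hj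
    linarith
  have hLk : (L.card : ℝ) ≤ k * (I + 1) := by
    have h0 : (0 : ℝ) ≤ L.card := Nat.cast_nonneg _
    nlinarith
  have hfact : ∀ n ∈ (Ioc a b).filter (Rg j), Rg j n ∧ 2 ^ I < n ∧ n ≤ 2 ^ (I + 1) := by
    intro n hn
    have h1 := Finset.mem_filter.1 hn
    have h2 := Finset.mem_Ioc.1 h1.1
    exact ⟨h1.2, by omega, by omega⟩
  have hn_le : ∀ n ∈ (Ioc a b).filter (Rg j), ∑ u ∈ F.filter (fun u => u.2 ∣ n ∧ c n u),
      ∑ l ∈ (n / u.2).divisors, E.TT i u.1 * ((l : ℝ) ^ (-(1 / 2 : ℝ) - dd) *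
        (((n / u.2 / l : ℕ) : ℝ))⁻¹) * ∏ p ∈ (u.1.primeFactors ∪ l.primeFactors) \ L, rho j p ≤
      K * (((I : ℝ) + 1) * (((k : ℝ) + 1) * ((I : ℝ) + 1) + 1) ^ 3 * B * Real.sqrt (QL L n) +
        ∑ u ∈ F.filter (fun u => u.2 ∣ n ∧ c n u ∧
          u.1.primeFactors ⊆ L ∪ (n / u.2).primeFactors), QL L n ^ (1 / 2 - d1)) := by
    intro n hn
    obtain ⟨hnR, hn1, hn2⟩ := hfact n hn
    have h1 : ∑ u ∈ F.filter (fun u => u.2 ∣ n ∧ c n u),
        ∑ l ∈ (n / u.2).divisors, E.TT i u.1 * ((l : ℝ) ^ (-(1 / 2 : ℝ) - dd) *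
        (((n / u.2 / l : ℕ) : ℝ))⁻¹) * ∏ p ∈ (u.1.primeFactors ∪ l.primeFactors) \ L, rho j p ≤
        ∑ u ∈ F.filter (fun u => u.2 ∣ n ∧ c n u), K * (QL L n ^ (1 / 2 - d1) *
          ∏ p ∈ u.1.primeFactors \ (L ∪ (n / u.2).primeFactors), rho j p) := by
      apply Finset.sum_le_sum
      intro u hu
      have h2 := Finset.mem_filter.1 hu
      exact inner_le hPW hF hj hi hnR hn1 hn2 h2.1 h2.2.1 L
    refine h1.trans ?_
    rw [← Finset.mul_sum]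
    apply mul_le_mul_of_nonneg_left _ hK0
    rw [split_sum F (fun u => u.2 ∣ n) (c n)
      (fun u => u.1.primeFactors ⊆ L ∪ (n / u.2).primeFactors), add_comm]
    apply add_le_add
    · rw [← Finset.mul_sum]
      have h3 := partA hF (L := L) hnR hB hF1 (c n)
      have h4 := QL_rpow_le_sqrt L hnR.1
      have h5 : 0 ≤ QL L n ^ (1 / 2 - d1) := by linarith [QL_rpow_one_le L hnR.1]
      have h6 := pf_card_le hj hnR hn2
      have h7 : (0 : ℝ) ≤ n.primeFactors.card := Nat.cast_nonneg _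
      have h8 : (0 : ℝ) ≤ L.card := Nat.cast_nonneg _
      have h9 : (n.primeFactors.card : ℝ) * (((L.card : ℝ) + n.primeFactors.card + 1) ^ 3 * B) ≤
          ((I : ℝ) + 1) * ((((k : ℝ) + 1) * ((I : ℝ) + 1) + 1) ^ 3 * B) := by
        apply mul_le_mul h6 _ (by positivity) (by positivity)
        apply mul_le_mul_of_nonneg_right _ hB
        apply pow_le_pow_left₀ (by positivity)
        nlinarith
      have h10 : 0 ≤ ∑ u ∈ F.filter (fun u => u.2 ∣ n ∧ c n u ∧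
          ¬ u.1.primeFactors ⊆ L ∪ (n / u.2).primeFactors),
          ∏ p ∈ u.1.primeFactors \ (L ∪ (n / u.2).primeFactors), rho j p :=
        Finset.sum_nonneg fun u _ => prod_rho_nonneg j _
      calc QL L n ^ (1 / 2 - d1) * ∑ u ∈ F.filter (fun u => u.2 ∣ n ∧ c n u ∧
          ¬ u.1.primeFactors ⊆ L ∪ (n / u.2).primeFactors),
          ∏ p ∈ u.1.primeFactors \ (L ∪ (n / u.2).primeFactors), rho j p ≤
          Real.sqrt (QL L n) * (((I : ℝ) + 1) * ((((k : ℝ) + 1) * ((I : ℝ) + 1) + 1) ^ 3 * B)) :=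
            mul_le_mul h4 (h3.trans h9) h10 (Real.sqrt_nonneg _)
        _ = _ := by ring
    · apply Finset.sum_le_sum
      intro u hu
      have h2 := (Finset.mem_filter.1 hu).2.2.2
      have h3 : u.1.primeFactors \ (L ∪ (n / u.2).primeFactors) = ∅ :=
        Finset.sdiff_eq_empty_iff_subset.2 h2
      rw [h3, Finset.prod_empty, mul_one]
  refine (Finset.sum_le_sum hn_le).trans ?_
  rw [← Finset.mul_sum]
  apply mul_le_mul_of_nonneg_left _ hK0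
  rw [Finset.sum_add_distrib]
  apply add_le_add _ le_rfl
  rw [← Finset.mul_sum]
  apply mul_le_mul_of_nonneg_left hQ
  positivity

end Q36.KZ
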